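import Pool.Agent.L0h58.HN.Stm
import Pool.Agent.L0h32.LT2.Mix2

/-!
# Thick classes of inputs that are closed under mixing
-/

set_option autoImplicit false

namespace Pool.Agent.L0h11.HN

open Finset Pool.Agent.L0h32.LT Pool.Agent.L0h32.LT2 Pool.Agent.L0h58.HN

theorem glue_inj {n : ℕ} {A B : Finset (Fin n)} (hAB : Disjoint A B) (w : Inp n)
    (p q : Sup n A × Sup n B) (h : glue A B w p.1.1 p.2.1 = glue A B w q.1.1 q.2.1) : p = q := by
  obtain ⟨u, v⟩ := p
  obtain ⟨u', v'⟩ := q
  have h' : glue A B w u.1 v.1 = glue A B w u'.1 v'.1 := h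
  refine Prod.ext (Subtype.ext ?_) (Subtype.ext ?_)
  · funext i
    show u.1 i = u'.1 i
    by_cases hi : i ∈ A
    · have := congrFun h' i
      unfold glue at this
      rwa [if_pos hi, if_pos hi] at this
    · rw [u.2 i hi, u'.2 i hi]
  · funext i
    show v.1 i = v'.1 i
    by_cases hi : i ∈ B
    · have := congrFun h' i
      unfold glue at this
      have hiA : i ∉ A := fun hiA => disjoint_left.1 hAB hiA hi
      rwa [if_neg hiA, if_neg hiA, if_pos hi, if_pos hi] at this
    · rw [v.2 i hi, v'.2 i hi]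

theorem ev_add {K N : ℕ} {F : Type} [Field F] (τ : Fin N → F) (c c' : Fin K → (Fin 6 → F))
    (t : Fin N) (i : Fin 6) :
    ev τ (fun d i => c d i + c' d i) t i = ev τ c t i + ev τ c' t i := by
  unfold ev
  rw [← sum_add_distrib]
  exact sum_congr rfl fun d _ => mul_add _ _ _

open Classical in
/-- The pairs of a class that is closed under mixing. -/
theorem t_RCT : S_COR2 → S_VDM → S_FIB → S_RCT := by
  intro hcor hvdm hfib n K N ρ s Δ F _ _ _ e M τ hτ hN hNF hF hK hΔ A B hAB hrA hrB C hC1 hC2 hA hB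
  haveI : CharP F 2 := charP_of_injective_algebraMap (algebraMap (ZMod 2) F).injective 2
  obtain ⟨x₀, hx₀⟩ : C.Nonempty := by
    rw [nonempty_iff_ne_empty]
    rintro rfl
    simp at hA
  set w : Inp n := fun i => if i ∈ A ∪ B then false else x₀ i with hw
  have hws : ∀ i, i ∈ A ∪ B → w i = false := fun i hi => by rw [hw]; exact if_pos hi
  have hwo : ∀ x ∈ C, ∀ i, i ∉ A → i ∉ B → x i = w i := by
    intro x hx i hi hi'
    rw [hw]
    dsimp only
    rw [if_neg (by rw [mem_union]; tauto)]
    exact hC1 x hx x₀ hx₀ i hi hi'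
  have hsuprst : ∀ (D : Finset (Fin n)) (x : Inp n) (i : Fin n), i ∉ D → rst D x i = false := by
    intro D x i hi
    unfold rst
    rw [if_neg hi]
  set SA : Finset (Sup n A) := univ.filter fun u => u.1 ∈ C.image (rst A) with hSA
  set SB : Finset (Sup n B) := univ.filter fun v => v.1 ∈ C.image (rst B) with hSB
  have hSAc : SA.card = (C.image (rst A)).card := by
    apply card_bij (fun u _ => u.1)
    · intro u hu
      exact (mem_filter.1 hu).2
    · intro u _ u' _ h
      exact Subtype.ext h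
    · intro y hy
      obtain ⟨x, hx, rfl⟩ := mem_image.1 hy
      exact ⟨⟨rst A x, hsuprst A x⟩, mem_filter.2 ⟨mem_univ _, hy⟩, rfl⟩
  have hSBc : SB.card = (C.image (rst B)).card := by
    apply card_bij (fun u _ => u.1)
    · intro u hu
      exact (mem_filter.1 hu).2
    · intro u _ u' _ h
      exact Subtype.ext h
    · intro y hy
      obtain ⟨x, hx, rfl⟩ := mem_image.1 hy
      exact ⟨⟨rst B x, hsuprst B x⟩, mem_filter.2 ⟨mem_univ _, hy⟩, rfl⟩
  have hprod : C.card ≤ SA.card * SB.card := by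
    rw [hSAc, hSBc, ← card_product]
    apply card_le_card_of_injOn (fun x => (rst A x, rst B x))
    · intro x hx
      exact mem_coe.2 (mem_product.2 ⟨mem_image_of_mem _ (mem_coe.1 hx),
        mem_image_of_mem _ (mem_coe.1 hx)⟩)
    · intro x hx y hy hxy
      have h3 := hwo x (mem_coe.1 hx)
      have h4 := hwo y (mem_coe.1 hy)
      have h5 : rst A x = rst A y := congrArg Prod.fst hxy
      have h6 : rst B x = rst B y := congrArg Prod.snd hxy
      funext i
      by_cases hiA : i ∈ A
      · have := congrFun h5 i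
        unfold rst at this
        rwa [if_pos hiA, if_pos hiA] at this
      · by_cases hiB : i ∈ B
        · have := congrFun h6 i
          unfold rst at this
          rwa [if_pos hiB, if_pos hiB] at this
        · rw [h3 i hiA hiB, h4 i hiA hiB]
  have hmap : ∀ p ∈ SA ×ˢ SB, glue A B w p.1.1 p.2.1 ∈ C := by
    rintro ⟨u, v⟩ hp
    obtain ⟨hu, hv⟩ := mem_product.1 hp
    obtain ⟨x, hx, hxu⟩ := mem_image.1 (mem_filter.1 hu).2
    obtain ⟨y, hy, hyv⟩ := mem_image.1 (mem_filter.1 hv).2
    have hglue : glue A B w u.1 v.1 = mix B x y := by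
      funext i
      unfold glue mix
      rw [← hxu, ← hyv]
      unfold rst
      by_cases hiA : i ∈ A
      · have hiB : i ∉ B := disjoint_left.1 hAB hiA
        rw [if_pos hiA, if_pos hiA, if_neg hiB]
      · by_cases hiB : i ∈ B
        · rw [if_neg hiA, if_pos hiB, if_pos hiB, if_pos hiB]
        · rw [if_neg hiA, if_neg hiB, if_neg hiB, hwo x hx i hiA hiB]
    show glue A B w u.1 v.1 ∈ C
    rw [hglue]
    exact hC2 x hx y hy
  have hprod' : SA.card * SB.card ≤ C.card := by
    rw [← card_product]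
    exact card_le_card_of_injOn (fun p => glue A B w p.1.1 p.2.1)
      (fun p hp => mem_coe.2 (hmap p (mem_coe.1 hp))) (fun p _ q _ h => glue_inj hAB w p q h)
  have hcard : SA.card * SB.card = C.card := le_antisymm hprod' hprod
  -- the corruption
  have hcorr := hcor N K ρ s (2 * Δ) F (Sup n A) (Sup n B)
    (fun x => ev τ fun j c => blk M e x.1 j c + blk M e w j c)
    (fun x => ev τ fun j c => blk M e x.1 j c + 0) hN hNF hF hK
    (hvdm K N s F (Sup n A) τ _ hτ
      (spread_sup M e (hfib n K ρ s F e M A hrA) fun j c => blk M e w j c))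
    (hvdm K N s F (Sup n B) τ _ hτ
      (spread_sup M e (hfib n K ρ s F e M B hrB) fun _ _ => (0 : F))) SA SB
  have hhits : (hits SA SB (fun x => ev τ fun j c => blk M e x.1 j c + blk M e w j c)
      (fun x => ev τ fun j c => blk M e x.1 j c + 0)).card ≤
      (C.filter fun x => ∃ t, qf (ev τ (blk M e x) t) = 0).card := by
    apply card_le_card_of_injOn (fun p => glue A B w p.1.1 p.2.1)
    · rintro ⟨u, v⟩ hp
      obtain ⟨hp1, t, hp2⟩ := mem_filter.1 (mem_coe.1 hp)
      refine mem_coe.2 (mem_filter.2 ⟨hmap _ hp1, t, ?_⟩)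
      rw [← hp2]
      congr 1
      funext c
      show ev τ (blk M e (glue A B w u.1 v.1)) t c = _
      have h1 : blk M e (glue A B w u.1 v.1) = fun j c =>
          (fun j c => blk M e u.1 j c + blk M e w j c) j c + (fun j c => blk M e v.1 j c + 0) j c := by
        funext j c
        rw [blk_glue hAB u.2 v.2 hws M e j c]
        dsimp only
        rw [add_zero]
      rw [h1, ev_add]
    · exact fun p _ q _ h => glue_inj hAB w p q h
  rw [card_sup, card_sup, hcard] at hcorr
  rw [← hSAc] at hA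
  rw [← hSBc] at hB
  have h1 : 2 ^ A.card * SB.card + SA.card * 2 ^ B.card ≤ 2 * 2 ^ Δ * C.card := by
    rw [← hcard]
    calc 2 ^ A.card * SB.card + SA.card * 2 ^ B.card
        ≤ SA.card * 2 ^ Δ * SB.card + SA.card * (SB.card * 2 ^ Δ) :=
          add_le_add (Nat.mul_le_mul_right _ hA.le) (Nat.mul_le_mul_left _ hB.le)
      _ = 2 * 2 ^ Δ * (SA.card * SB.card) := by ring
  have h2 : N * (2 ^ A.card * SB.card + SA.card * 2 ^ B.card) ≤ 2 ^ (2 * Δ) * C.card := by
    calc N * (2 ^ A.card * SB.card + SA.card * 2 ^ B.card) ≤ N * (2 * 2 ^ Δ * C.card) :=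
          Nat.mul_le_mul_left _ h1
      _ = (2 * N) * 2 ^ Δ * C.card := by ring
      _ ≤ 2 ^ Δ * 2 ^ Δ * C.card := Nat.mul_le_mul_right _ (Nat.mul_le_mul_right _ hΔ)
      _ = 2 ^ (2 * Δ) * C.card := by rw [two_mul, pow_add]
  have h3 : 2 ^ (2 * Δ) * (N * C.card) ≤ 2 ^ (2 * Δ) *
      (Fintype.card F * (C.filter fun x => ∃ t, qf (ev τ (blk M e x) t) = 0).card +
        (2 * ((s + 2 * Δ) / ρ) + 2) * C.card) := by
    calc 2 ^ (2 * Δ) * (N * C.card) ≤ _ := hcorr
      _ ≤ 2 ^ (2 * Δ) * (Fintype.card F *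
            (C.filter fun x => ∃ t, qf (ev τ (blk M e x) t) = 0).card +
            (2 * ((s + 2 * Δ) / ρ) + 1) * C.card) + 2 ^ (2 * Δ) * C.card :=
        add_le_add (Nat.mul_le_mul_left _ (Nat.add_le_add_right (Nat.mul_le_mul_left _ hhits) _)) h2
      _ = _ := by ring
  exact Nat.le_of_mul_le_mul_left h3 (by positivity)

end Pool.Agent.L0h11.HN
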